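import Pool.Agent.Helper5.LCU.Stmts

/-! Row COR of the project LCU (MP_e96806_co): correlations. -/

set_option autoImplicit false

open Finset

namespace Pool.Agent.Helper5.LCU

theorem st_COR (hCB : ST_CB) (hMAJ : ST_MAJ) : ST_COR := by
  intro s a hs ha N
  refine ⟨fun p => Finset.sum_nonneg fun i _ => mul_nonneg (hs.1 i) (ha.1 _), ?_⟩
  intro i j hij
  have hu : ∀ y : ℕ, ∑ k ∈ range (N + 1), (if k < N then s k else 0) * a (k + y) =
      ∑ k ∈ range N, s k * a (y + k) := by
    intro y
    rw [Finset.sum_range_succ, if_neg (lt_irrefl N), zero_mul, add_zero]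
    refine Finset.sum_congr rfl fun k hk => ?_
    rw [if_pos (Finset.mem_range.1 hk), Nat.add_comm k y]
  have hv : ∀ y : ℕ, ∑ k ∈ range (N + 1), (if k = 0 then 0 else s (k - 1)) * a (k + y) =
      ∑ k ∈ range N, s k * a (y + 1 + k) := by
    intro y
    rw [Finset.sum_range_succ', if_pos rfl, zero_mul, add_zero]
    refine Finset.sum_congr rfl fun k _ => ?_
    rw [if_neg (Nat.succ_ne_zero k), Nat.add_sub_cancel]
    have h : k + 1 + y = y + 1 + k := by omega
    rw [h]
  have h := hCB (N + 1) (fun k => if k < N then s k else 0)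
    (fun k => if k = 0 then 0 else s (k - 1)) (fun k => a (k + (j + 1))) (fun k => a (k + i))
    (by
      intro x t hxt ht
      have hx : x < N := by omega
      have ht0 : t ≠ 0 := by omega
      rw [if_pos hx, if_neg ht0]
      have h0 : 0 ≤ s x * s (t - 1) := mul_nonneg (hs.1 _) (hs.1 _)
      by_cases hx0 : x = 0
      · rw [if_pos hx0, mul_zero, sub_zero]
        exact h0
      · rw [if_neg hx0]
        by_cases htN : t < N
        · rw [if_pos htN]
          have h1 := hs.2 (x - 1) (t - 2) (by omega)
          have e1 : t - 2 + 2 = t := by omega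
          have e2 : x - 1 + 1 = x := by omega
          have e3 : t - 2 + 1 = t - 1 := by omega
          rw [e1, e2, e3] at h1
          linarith
        · rw [if_neg htN, zero_mul, sub_zero]
          exact h0)
    (by
      intro x t hxt _
      have h1 := hMAJ a ha (x + i) (t + (j + 1)) (x + (j + 1)) (t + i) (by omega) (by omega)
        (by omega)
      linarith)
  rw [hu i, hv (j + 1), hu (j + 1), hv i] at h
  show (∑ k ∈ range N, s k * a (i + k)) * (∑ k ∈ range N, s k * a (j + 2 + k)) ≤
    (∑ k ∈ range N, s k * a (i + 1 + k)) * (∑ k ∈ range N, s k * a (j + 1 + k))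
  have e1 : j + 1 + 1 = j + 2 := rfl
  rw [e1] at h
  linarith

end Pool.Agent.Helper5.LCU
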